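import Pool.Agent.Helper83.Ball.Types
import Pool.Agent.Helper8.B.Defs
import Pool.Agent.Helper7.Bridge3

/-!
From abelian varieties of ball quotient type to adapted frames and Hermitian forms.
-/

open scoped ComplexConjugate

namespace Pool.Agent.Helper83.Ball

set_option linter.unusedSectionVars false

open Module NumberField Matrix Pool.Agent.GPC Pool.Agent.Helper7 Pool.Agent.Ball

section gen

variable {κ : Type} [Fintype κ] [DecidableEq κ] {ϖ : ℂ} {P : PData κ ϖ} {K : Type} [Field K]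
    [NumberField K] {m : ℕ} (F : UF P K m)

/-- the vector with given coordinates in an eigenspace -/
noncomputable def vec (σ : K →+* ℂ) (v : Fin m → ℂ) : κ → ℂ := ∑ a, v a • F.e σ a

lemma conj_conj' (σ : K →+* ℂ) :
    ComplexEmbedding.conjugate (ComplexEmbedding.conjugate σ) = σ := by
  ext x
  simp

lemma cB_e' (σ : K →+* ℂ) (b : Fin m) :
    cB P (F.e σ b) = F.e (ComplexEmbedding.conjugate σ) b := by
  rw [F.e_eq, F.e_eq, cB_proj P F.ρ (fun x v hv => (F.hρ x).rat v hv),
    cB_of_mem P _ (F.lam_rat b)]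

lemma cB_vec (σ : K →+* ℂ) (v : Fin m → ℂ) :
    cB P (vec F σ v) = vec F (ComplexEmbedding.conjugate σ) (fun a => conj (v a)) := by
  unfold vec
  rw [cB_sum]
  refine Finset.sum_congr rfl fun a _ => ?_
  rw [cB_smul, cB_e']

lemma hf_HG (σ : K →+* ℂ) (u v : Fin m → ℂ) :
    hf (HG F σ) u v = P.ψ (cB P (vec F σ u)) (vec F σ v) := by
  rw [cB_vec]
  unfold hf vec HG
  rw [dotProduct, map_sum P.ψ, LinearMap.sum_apply]
  refine Finset.sum_congr rfl fun a _ => ?_
  rw [map_smul, LinearMap.smul_apply, map_sum, mulVec, dotProduct, smul_eq_mul]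
  congr 1
  refine Finset.sum_congr rfl fun b _ => ?_
  rw [map_smul, smul_eq_mul, Matrix.of_apply, mul_comm]

lemma co_vec (σ : K →+* ℂ) (v : Fin m → ℂ) (a : Fin m) : F.co σ a (vec F σ v) = v a := by
  classical
  unfold vec
  rw [map_sum, Finset.sum_eq_single a]
  · rw [map_smul, F.co_e, if_pos ⟨rfl, rfl⟩, smul_eq_mul, mul_one]
  · intro b _ hb
    rw [map_smul, F.co_e, if_neg (fun h => hb h.2.symm), smul_zero]
  · intro h; exact absurd (Finset.mem_univ _) h

lemma vec_eq_zero (σ : K →+* ℂ) (v : Fin m → ℂ) (h : vec F σ v = 0) : v = 0 := by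
  funext a
  rw [← co_vec F σ v a, h, map_zero, Pi.zero_apply]

lemma vec_zero (σ : K →+* ℂ) : vec F σ 0 = 0 := by
  unfold vec
  simp

lemma proj_vec (σ : K →+* ℂ) (v : Fin m → ℂ) : proj F.ρ σ (vec F σ v) = vec F σ v := by
  classical
  unfold vec
  rw [map_sum]
  refine Finset.sum_congr rfl fun a _ => ?_
  rw [map_smul, F.proj_e, if_pos rfl]

lemma exists_vec (σ : K →+* ℂ) (w : κ → ℂ) (h : proj F.ρ σ w = w) :
    ∃ v, w = vec F σ v := ⟨fun a => F.co σ a w, by rw [vec, ← F.proj_eq, h]⟩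

lemma rho_vec (σ : K →+* ℂ) (v : Fin m → ℂ) (x : K) :
    F.ρ x (vec F σ v) = σ x • vec F σ v := by
  unfold vec
  rw [map_sum, Finset.smul_sum]
  refine Finset.sum_congr rfl fun a _ => ?_
  rw [map_smul, F.rho_e, smul_comm]

lemma proj_of_eigen (σ : K →+* ℂ) (v : κ → ℂ) (h : ∀ x, F.ρ x v = σ x • v) :
    proj F.ρ σ v = v := by
  have h1 : ∀ τ : K →+* ℂ, τ ≠ σ → proj F.ρ τ v = 0 := by
    intro τ hτ
    have h2 : ∃ x, τ x ≠ σ x := by
      by_contra hcon
      push Not at hcon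
      exact hτ (RingHom.ext hcon)
    obtain ⟨x, hx⟩ := h2
    have h3 := F.proj_rho τ x v
    rw [h x, map_smul] at h3
    have h4 : (σ x - τ x) • proj F.ρ τ v = 0 := by rw [sub_smul, h3, sub_self]
    exact (smul_eq_zero.mp h4).resolve_left (sub_ne_zero.mpr (Ne.symm hx))
  have h2 : v = ∑ τ, proj F.ρ τ v := by
    rw [← LinearMap.sum_apply, sum_proj]; rfl
  rw [Finset.sum_eq_single σ (fun τ _ hτ => h1 τ hτ)
    (fun h => absurd (Finset.mem_univ _) h)] at h2
  exact h2.symm

/-- the pairing of eigenspaces which are not conjugate vanishes -/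
lemma psi_eigen (σ τ : K →+* ℂ) (h : τ ≠ ComplexEmbedding.conjugate σ) (u v : Fin m → ℂ) :
    P.ψ (vec F σ u) (vec F τ v) = 0 := by
  have h2 : ∃ x, τ x ≠ ComplexEmbedding.conjugate σ x := by
    by_contra hcon
    push Not at hcon
    exact h (RingHom.ext hcon)
  obtain ⟨x, hx⟩ := h2
  have h3 := F.hros (F.cc x) (vec F σ u) (vec F τ v)
  rw [F.cc_cc, rho_vec, rho_vec, map_smul, LinearMap.smul_apply, map_smul, smul_eq_mul,
    smul_eq_mul, F.hcc] at h3
  have h4 : (τ x - conj (σ x)) * P.ψ (vec F σ u) (vec F τ v) = 0 := by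
    rw [sub_mul, sub_eq_zero]
    exact h3.symm
  refine (mul_eq_zero.mp h4).resolve_left (sub_ne_zero.mpr ?_)
  intro h5
  apply hx
  rw [h5, ComplexEmbedding.conjugate_coe_eq]

/-- the Hermitian form of a place is nondegenerate -/
theorem hf_nondeg (σ : K →+* ℂ) (v : Fin m → ℂ) (h : ∀ u, hf (HG F σ) u v = 0) : v = 0 := by
  classical
  apply vec_eq_zero F σ
  apply P.hψnd
  intro w
  rw [P.hψalt, neg_eq_zero]
  have h1 : w = ∑ τ, vec F τ (fun a => F.co τ a w) := F.hsum w
  rw [h1, map_sum, LinearMap.sum_apply]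
  refine Finset.sum_eq_zero fun τ _ => ?_
  by_cases hτ : σ = ComplexEmbedding.conjugate τ
  · have h2 := h (fun a => conj (F.co τ a w))
    rw [hf_HG, cB_vec] at h2
    simp only [Complex.conj_conj] at h2
    have h3 : ComplexEmbedding.conjugate σ = τ := by rw [hτ, conj_conj']
    rw [h3] at h2
    exact h2
  · exact psi_eigen F τ σ hτ _ _

end gen

section av

variable {A : AbVar} {K : Type} [Field K] [NumberField K] {m : ℕ} (F : UF (pData A) K m)

lemma HG_herm (σ : K →+* ℂ) : (HG F σ).IsHermitian := by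
  ext a b
  rw [Matrix.conjTranspose_apply, HG, Matrix.of_apply, Matrix.of_apply]
  have h1 := psi_cB (pData A) (F.e (ComplexEmbedding.conjugate σ) b) (F.e σ a)
  rw [cB_e', cB_e', conj_conj'] at h1
  rw [show star ((pData A).ψ (F.e (ComplexEmbedding.conjugate σ) b) (F.e σ a)) =
    conj ((pData A).ψ (F.e (ComplexEmbedding.conjugate σ) b) (F.e σ a)) from rfl,
    eq_comm, ← neg_inj, ← h1, (pData A).hψalt, neg_neg]

lemma isEnd_rho (x : K) : A.IsEnd (F.ρ x) := isEnd_of_isDRB A _ (F.hρ x)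

/-- positivity on the filtration -/
lemma pos_fil (σ : K →+* ℂ) (v : Fin m → ℂ) (hv : v ≠ 0) (h : A.IsFil (vec F σ v)) :
    0 < (hf (HG F σ) v v).re := by
  have hne : vec F σ v ≠ 0 := fun h0 => hv (vec_eq_zero F σ v h0)
  obtain ⟨r, hr, h1⟩ := sign_fil A h hne
  rw [hf_HG, (pData A).hψalt, h1, neg_neg]
  simpa using hr

/-- vectors of an eigenspace -/
lemma decomp (σ : K →+* ℂ) (v : Fin m → ℂ) : ∃ u u' : A.H1, A.IsFil u ∧ A.IsFil u' ∧
    proj F.ρ σ u = u ∧ proj F.ρ (ComplexEmbedding.conjugate σ) u' = u' ∧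
    vec F σ v = u + cB (pData A) u' := by
  obtain ⟨u, u', hu, hu', h⟩ := exists_hodge A (vec F σ v)
  refine ⟨proj F.ρ σ u, proj F.ρ (ComplexEmbedding.conjugate σ) u',
    proj_fil A F.ρ (isEnd_rho F) σ hu, proj_fil A F.ρ (isEnd_rho F) _ hu',
    proj_idem A F.ρ σ u, proj_idem A F.ρ _ u', ?_⟩
  rw [← proj_vec F σ v, h, map_add, proj_cB A F.ρ (isEnd_rho F)]

/-- negativity on the conjugate of the filtration -/
lemma neg_conj (σ : K →+* ℂ) (v : Fin m → ℂ) (hv : v ≠ 0) (u' : A.H1) (hu' : A.IsFil u')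
    (h : vec F σ v = cB (pData A) u') : (hf (HG F σ) v v).re < 0 := by
  have hne : u' ≠ 0 := by
    rintro rfl
    rw [cB_zero] at h
    exact hv (vec_eq_zero F σ v h)
  obtain ⟨r, hr, h1⟩ := sign_fil A hu' hne
  rw [hf_HG, h, cB_cB, h1]
  simpa using hr

theorem definite_of_pure (ρ : K → A.H1 → A.H1) (hρ : ∀ x v, F.ρ x v = ρ x v) (σ : K →+* ℂ)
    (h : A.IsPureAt ρ σ) : Definite (HG F σ) := by
  refine ⟨HG_herm F σ, ?_⟩
  rcases h with h | h
  · left
    intro v hv
    refine pos_fil F σ v hv (h _ fun x => ?_)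
    rw [← hρ, rho_vec]
  · right
    intro v hv
    obtain ⟨u, u', hu, hu', hp, hp', huu⟩ := decomp F σ v
    have h0 : u = 0 := by
      refine h u (fun x => ?_) hu
      rw [← hρ]
      obtain ⟨w, hw⟩ := exists_vec F σ u hp
      rw [hw, rho_vec]
    rw [h0, zero_add] at huu
    exact neg_conj F σ v hv u' hu' huu

theorem lorentz_of_one (ρ : K → A.H1 → A.H1) (hρ : ∀ x v, F.ρ x v = ρ x v) (σ₀ : K →+* ℂ)
    (h : finrank ℂ (A.eigenFil ρ σ₀) = 1) :
    Lorentz (HG F (ComplexEmbedding.conjugate σ₀)) := by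
  refine ⟨HG_herm F _, ?_⟩
  -- a generator
  have hsub : ∀ w ∈ A.eigenFil ρ σ₀, proj F.ρ σ₀ w = w ∧ A.IsFil w := by
    intro w hw
    induction hw using Submodule.span_induction with
    | mem x hx =>
      refine ⟨proj_of_eigen F σ₀ x fun y => ?_, hx.2⟩
      rw [hρ]; exact hx.1 y
    | zero => exact ⟨map_zero _, fil_zero A⟩
    | add x y _ _ hx hy => exact ⟨by rw [map_add, hx.1, hy.1], fil_add A hx.2 hy.2⟩
    | smul c x _ hx => exact ⟨by rw [map_smul, hx.1], fil_smul A c hx.2⟩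
  obtain ⟨f, hf1⟩ := finrank_eq_one_iff'.mp h
  obtain ⟨hf0, hf2⟩ := hf1
  obtain ⟨hfp, hfF⟩ := hsub f f.2
  have hfne : (f : A.H1) ≠ 0 := fun h0 => hf0 (Subtype.ext h0)
  -- the negative vector
  have hcp : proj F.ρ (ComplexEmbedding.conjugate σ₀) (cB (pData A) f) = cB (pData A) f := by
    rw [proj_cB A F.ρ (isEnd_rho F), conj_conj', hfp]
  obtain ⟨e, he⟩ := exists_vec F _ _ hcp
  have hene : e ≠ 0 := by
    rintro rfl
    rw [vec_zero] at he
    exact cB_ne_zero A hfne he
  have heneg : (hf (HG F (ComplexEmbedding.conjugate σ₀)) e e).re < 0 :=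
    neg_conj F _ e hene f hfF he.symm
  refine ⟨e, heneg, fun v hv hv0 => ?_⟩
  obtain ⟨u, u', hu, hu', hp, hp', huu⟩ := decomp F (ComplexEmbedding.conjugate σ₀) v
  rw [conj_conj'] at hp'
  -- `u'` is a multiple of `f`
  have hmem : u' ∈ A.eigenFil ρ σ₀ := by
    refine Submodule.subset_span ⟨fun x => ?_, hu'⟩
    obtain ⟨w, hw⟩ := exists_vec F σ₀ u' hp'
    rw [← hρ, hw, rho_vec]
  obtain ⟨c, hc⟩ := hf2 ⟨u', hmem⟩
  have hc' : u' = c • (f : A.H1) := (congrArg Subtype.val hc).symm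
  have h1 : hf (HG F (ComplexEmbedding.conjugate σ₀)) e v =
      conj c * hf (HG F (ComplexEmbedding.conjugate σ₀)) e e := by
    rw [hf_HG, hf_HG, huu, ← he, hc', cB_smul, map_add, map_smul, cB_cB,
      fil_isotropic A hfF hu, zero_add, smul_eq_mul]
  have hne : hf (HG F (ComplexEmbedding.conjugate σ₀)) e e ≠ 0 := by
    intro h0
    rw [h0] at heneg
    simp at heneg
  rw [hv] at h1
  have hc0 : conj c = 0 := (mul_eq_zero.mp h1.symm).resolve_right hne
  have hc1 : c = 0 := by simpa using hc0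
  rw [hc', hc1, zero_smul, cB_zero, add_zero] at huu
  refine pos_fil F _ v hv0 ?_
  rw [huu]
  exact hu

end av

section main

/-- the action as ring homomorphism -/
noncomputable def ballRho {A : AbVar} {K : Type} [Field K] [NumberField K] [IsCMField K] {m : ℕ}
    {ρ : K → A.H1 → A.H1} (C : A.IsBallMult K m ρ) : K →+* Module.End ℂ A.H1 where
  toFun x := IsLinearMap.mk' _ (C.endo x).linear
  map_one' := LinearMap.ext C.one
  map_mul' x y := LinearMap.ext (C.mul x y)
  map_add' x y := LinearMap.ext (C.add x y)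
  map_zero' := LinearMap.ext fun v => by
    have h := C.add 0 0 v
    rw [add_zero] at h
    have h2 : ρ 0 v = 0 := by
      have h3 := congrArg (fun w => w - ρ 0 v) h
      simp only [sub_self, add_sub_cancel_right] at h3
      exact h3.symm
    exact h2

theorem nonempty_UF (A : AbVar) (K : Type) [Field K] [NumberField K] [IsCMField K] (m : ℕ)
    (ρ : K → A.H1 → A.H1) (C : A.IsBallMult K m ρ) :
    ∃ F : UF (pData A) K m, ∀ x v, F.ρ x v = ρ x v := by
  have hQ : ∀ x, ∀ v ∈ (pData A).Q, ballRho C x v ∈ (pData A).Q :=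
    fun x v hv => (isDRB_of_isEnd A _ (C.endo x)).rat v hv
  obtain ⟨lam, h1, h2, eb, h3⟩ := exists_Kbasis (pData A) (ballRho C) hQ m
    (by rw [card_index, mul_comm, C.rank])
  exact ⟨{  ρ := ballRho C
            hρ := fun x => isDRB_of_isEnd A _ (C.endo x)
            cc := cmConj K
            hcc := fun σ x => IsCMField.complexEmbedding_complexConj K σ x
            hros := fun x u v => C.rosati x u v
            hcen := fun f hf hc => C.centralizer f (isEnd_of_isDRB A f hf) hc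
            hnd := hnd_pData A
            lam := lam
            lam_rat := h1
            gen := h2
            eb := eb
            heb := h3 }, fun x v => rfl⟩

/-- Adapted frames of an abelian variety of ball quotient type: one place is Lorentzian, the places
which are not equal or conjugate to it are definite. -/
theorem ball_frame (A : AbVar) (K : Type) [Field K] [NumberField K] [IsCMField K] (m : ℕ)
    (ρ : K → A.H1 → A.H1) (C : A.IsBallMult K m ρ) :
    ∃ (F : UF (pData A) K m) (σ₀ : K →+* ℂ), (∀ x v, F.ρ x v = ρ x v) ∧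
      Lorentz (HG F σ₀) ∧
      ∀ σ, σ ≠ σ₀ → σ ≠ ComplexEmbedding.conjugate σ₀ → Definite (HG F σ) := by
  obtain ⟨F, hF⟩ := nonempty_UF A K m ρ C
  obtain ⟨σ₁, h1, h2⟩ := C.signature
  refine ⟨F, ComplexEmbedding.conjugate σ₁, hF, lorentz_of_one F ρ hF σ₁ h1, ?_⟩
  intro σ hσ hσ'
  rw [conj_conj'] at hσ'
  exact definite_of_pure F ρ hF σ (h2 σ hσ' hσ)

end main

end Pool.Agent.Helper83.Ball
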