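import Pool.Agent.Helper83.Ball.Bridge
import Pool.Agent.Helper8.B.Final
import Pool.Agent.Helper7.J9
import Pool.Agent.Helper39.AF.Split
import Pool.Agent.Helper39.AF.Transfer

/-!
Grothendieck classes on abelian varieties of ball quotient type.
-/

open scoped ComplexConjugate

namespace Pool.Agent.Helper83.Ball

open Module NumberField Matrix Pool.Agent.GPC Pool.Agent.Helper7 Pool.Agent.Ball
open Pool.Agent.Helper39.AF Pool.Agent.Helper71.AF

/-- one factor -/
noncomputable def one (A : AbVar) : A.H1 ≃ₗ[ℂ] H1 (fun _ : Unit => A) (fun _ => 1) where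
  toFun v := fun _ _ => v
  invFun v := v () 0
  map_add' _ _ := rfl
  map_smul' _ _ := rfl
  left_inv _ := rfl
  right_inv v := by
    funext i j
    have hj : j = 0 := Subsingleton.elim _ _
    subst hj
    rfl

lemma isIsogeny_one (A : AbVar) : IsIsogeny A (fun _ : Unit => A) (fun _ => 1) (one A) where
  betti _ := ⟨fun h _ _ => h, fun h => h () 0⟩
  deRham _ := ⟨fun h _ _ => h, fun h => h () 0⟩
  fil _ := ⟨fun h _ _ => h, fun h => h () 0⟩

/-- Grothendieck classes on abelian varieties of ball quotient type are divisorial, below the degree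
of the determinants and in the complementary range. -/
theorem main_ball (A : AbVar) (K : Type) [Field K] [NumberField K] [IsCMField K] (m : ℕ)
    (ρ : K → A.H1 → A.H1) (C : A.IsBallMult K m ρ) (hm : 3 ≤ m) (k : ℕ)
    (hk : 2 * k < (if Even m then m else 2 * m) ∨
      2 * A.g < 2 * k + (if Even m then m else 2 * m)) (α : A.Class (2 * k)) :
    A.IsGrothendieckClass k α ↔ A.IsDivisorialClass k α := by
  refine ⟨fun hα => ?_, fun h => grothendieck_of_divisorial h⟩
  obtain ⟨F, σ₀, hF, hL, hD⟩ := ball_frame A K m ρ C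
  have hc : ComplexEmbedding.conjugate σ₀ ≠ σ₀ := fun h =>
    IsTotallyComplex.complexEmbedding_not_isReal σ₀ (ComplexEmbedding.isReal_iff.mpr h)
  have hiso := isIsogeny_one A
  have hG := grothendieck_transfer hiso α hα
  set β : Form (fun _ : Unit => A) (fun _ => 1) (2 * k) :=
    α.compLinearMap (one A).symm.toLinearMap with hβ
  have h1 := abstract_ball (pData A) F hm σ₀ hc hL hD β (fun v hv => hG.2 v fun r i j =>
    (mem_pData_Q _ _).mp (hv r i j)) hG.1 (by rw [card_index]; exact hk)
  have h2 := isDivisorial_of_span (fun _ : Unit => A) (fun _ => 1) k β h1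
  have h3 := divisorial_transfer hiso (ι := fun _ => id)
    (fun _ => ⟨⟨⟨fun _ _ => rfl, fun _ _ => rfl⟩, fun _ h => h, fun _ h => h, fun _ h => h⟩,
      fun _ _ => rfl⟩) β h2
  have h4 : β.compLinearMap (one A).toLinearMap = α := by
    ext v
    rfl
  rwa [h4] at h3

end Pool.Agent.Helper83.Ball
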