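import Pool.Agent.Helper7.U.UTypes

/-!
Abelian varieties of ball quotient type.
-/

namespace Pool.Agent.GPC

/-- The intersection of the step `F^0` of the Hodge filtration with the `σ`-eigenspace of `K` in
`H_1(A)`. Its dimension is the multiplicity of the complex conjugate of `σ` in
`Lie A = H_1(A) / F^0`. -/
def AbVar.eigenFil (A : AbVar) {K : Type} [Field K] (ρ : K → A.H1 → A.H1) (σ : K →+* ℂ) :
    Submodule ℂ A.H1 :=
  Submodule.span ℂ {v | (∀ x, ρ x v = σ x • v) ∧ A.IsFil v}

/-- The CM field `K` acts on `H_1(A)` by `ρ` through endomorphisms of `A` (tensor `ℚ`), the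
dimension of `H_1(A, ℚ)` over `K` is `m`, the Rosati involution is complex conjugation on `K`, every
endomorphism of `A` (tensor `ℚ`) which commutes with `K` is in `K`, and the multiplicities of the
embeddings of `K` in `Lie A` are `1` and `m - 1` for some embedding and its complex conjugate, and
`0` or `m` for the other embeddings. -/
structure AbVar.IsBallMult (A : AbVar) (K : Type) [Field K] [NumberField K]
    [NumberField.IsCMField K] (m : ℕ) (ρ : K → A.H1 → A.H1) : Prop where
  one : ∀ v, ρ 1 v = v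
  mul : ∀ x y v, ρ (x * y) v = ρ x (ρ y v)
  add : ∀ x y v, ρ (x + y) v = ρ x v + ρ y v
  rank : m * Module.finrank ℚ K = 2 * A.g
  endo : ∀ x, A.IsEnd (ρ x)
  rosati : ∀ x, A.IsAdjoint (ρ x) (ρ (cmConj K x))
  centralizer : ∀ f, A.IsEnd f → (∀ x v, f (ρ x v) = ρ x (f v)) → ∃ x, ∀ v, f v = ρ x v
  signature : ∃ σ₀ : K →+* ℂ, Module.finrank ℂ (A.eigenFil ρ σ₀) = 1 ∧
    ∀ σ : K →+* ℂ, σ ≠ σ₀ → σ ≠ NumberField.ComplexEmbedding.conjugate σ₀ → A.IsPureAt ρ σ

end Pool.Agent.GPC
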